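import Mathlib
import Pool.Agent.Lib.MP_85963d_gt.Interfaces

/-!
# CAS: the Casimir operator
-/

set_option autoImplicit false

open MeasureTheory Set Filter Topology Quaternion
open scoped Real ContDiff

namespace Pool.Agent.MP85963d.H2

open SF

/-! ### the frame components -/

theorem contDiffAt_invQ {x : ℍ} (hx : x ≠ 0) : ContDiffAt ℝ ∞ (Inv.inv : ℍ → ℍ) x := by
  have h := contDiffAt_ringInverse ℝ (n := ∞) (Units.mk0 x hx)
  rw [Ring.inverse_eq_inv'] at h
  exact h

theorem contDiffOn_invQ : ContDiffOn ℝ ∞ (fun x : ℍ => x⁻¹) {0}ᶜ := fun _ hx =>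
  (contDiffAt_invQ hx).contDiffWithinAt

theorem contDiffOn_fr (a : ℍ) : ContDiffOn ℝ ∞ (fr a) {0}ᶜ := by
  have h : ContDiffOn ℝ ∞ (fun x : ℍ => x * a * x⁻¹) {0}ᶜ :=
    (contDiffOn_id.mul contDiffOn_const).mul contDiffOn_invQ
  exact im3.contDiff.comp_contDiffOn h

theorem fr_hom (a : ℍ) {r : ℝ} (hr : r ≠ 0) (x : ℍ) : fr a (r • x) = fr a x := by
  have e : conjQ (r • x) a = conjQ x a := by
    simp only [conjQ]
    rw [smul_inv₀, smul_mul_assoc, smul_mul_smul_comm, mul_inv_cancel₀ hr, one_smul]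
  rw [fr, e, fr]

/-- components of the frame vectors as elements of `SF` -/
noncomputable def frc (a : ℍ) (i : Fin 3) : SF :=
  SF.of (fun x => fr a x i)
    (by
      have h1 : ContDiff ℝ ∞ (fun v : E3 => v i) := by fun_prop
      exact h1.comp_contDiffOn (contDiffOn_fr a))
    (fun r x hr hx => by rw [fr_hom a hr])

theorem frc_apply (a : ℍ) (i : Fin 3) {x : ℍ} (hx : x ≠ 0) : (frc a i) x = fr a x i :=
  SF.of_apply hx

theorem im_sum {q : ℍ} (h : q.re = 0) : q = ∑ a : Fin 3, (im3 q) a • qU a := by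
  rw [Fin.sum_univ_three]
  apply Quaternion.ext <;> simp [qU] <;> simp [qI, qJ, qK, h]

theorem mul_eq_sum {a : ℍ} (ha : a.re = 0) {x : ℍ} (hx : x ≠ 0) :
    x * a = ∑ i : Fin 3, (fr a x i) • (qU i * x) := by
  have h1 := im_sum (q := conjQ x a) (by rw [re_conjQ hx, ha])
  have h2 : x * a = conjQ x a * x := by simp [conjQ, hx]
  rw [h2, h1, Finset.sum_mul]
  refine Finset.sum_congr rfl fun i _ => ?_
  rw [smul_mul_assoc]
  rfl

theorem R_eq_sum {a : ℍ} (ha : a.re = 0) (F : SF) :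
    R ((1 / 2 : ℝ) • a) F = ∑ i, frc a i * DZ i F := by
  apply ext'
  intro x hx
  rw [R_apply, mul_smul_comm, mul_eq_sum ha hx, sum_apply, Finset.smul_sum, map_sum]
  refine Finset.sum_congr rfl fun i _ => ?_
  rw [mul_apply, frc_apply _ _ hx, DZ, Z_apply, smul_mul_assoc, smul_comm, map_smul, smul_eq_mul]

theorem DX_eq_sum (F : SF) : DX F = ∑ i, frc qK i * DZ i F := R_eq_sum rfl F
theorem DV_eq_sum (F : SF) : DV F = ∑ i, frc qI i * DZ i F := R_eq_sum rfl F
theorem DH_eq_sum (F : SF) : DH F = - ∑ i, frc qJ i * DZ i F := by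
  rw [← R_eq_sum rfl F, DH, R_neg]

/-! ### the frame vectors are constant along their own rotation -/

theorem R_frc_self {a : ℍ} (h : IsImUnit a) (i : Fin 3) : R ((1 / 2 : ℝ) • a) (frc a i) = 0 := by
  apply ext'
  intro x hx
  have h1 := hasDerivAt_R h (frc a i) hx 0
  have h2 : (fun t => (frc a i) (x * rot a t)) = fun _ => (frc a i) x := by
    funext t
    rw [frc_apply _ _ (mul_ne_zero hx (rot_ne_zero h t)), frc_apply _ _ hx, fr_mul,
      conj_rot_self h]
  rw [h2] at h1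
  have h3 := h1.unique (hasDerivAt_const 0 _)
  rw [rot_zero, mul_one] at h3
  rw [h3, zero_apply]

theorem RR_eq {a : ℍ} (h : IsImUnit a) (F : SF) :
    R ((1 / 2 : ℝ) • a) (R ((1 / 2 : ℝ) • a) F)
      = ∑ i, ∑ j, (frc a i * frc a j) * DZ i (DZ j F) := by
  have hre : a.re = 0 := by
    have := congrArg (fun q : ℍ => q.re) h.star_eq
    simp only [Quaternion.re_star, Quaternion.re_neg] at this
    linarith
  have e1 : R ((1 / 2 : ℝ) • a) (R ((1 / 2 : ℝ) • a) F)
      = ∑ j, frc a j * R ((1 / 2 : ℝ) • a) (DZ j F) := by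
    conv_lhs => rw [R_eq_sum hre F]
    rw [map_sum]
    refine Finset.sum_congr rfl fun j _ => ?_
    rw [Derivation.leibniz, R_frc_self h]
    simp
  rw [e1]
  rw [Finset.sum_comm]
  refine Finset.sum_congr rfl fun j _ => ?_
  rw [R_eq_sum hre (DZ j F), Finset.mul_sum]
  refine Finset.sum_congr rfl fun i _ => ?_
  ring

theorem orth_aux (e u v : Fin 3 → ℝ)
    (g1 : u 0 * u 0 + u 1 * u 1 + u 2 * u 2 = 1) (g2 : v 0 * v 0 + v 1 * v 1 + v 2 * v 2 = 1)
    (g3 : e 0 * e 0 + e 1 * e 1 + e 2 * e 2 = 1) (g4 : u 0 * v 0 + u 1 * v 1 + u 2 * v 2 = 0)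
    (g5 : u 0 * e 0 + u 1 * e 1 + u 2 * e 2 = 0) (g6 : v 0 * e 0 + v 1 * e 1 + v 2 * e 2 = 0)
    (i j : Fin 3) : e i * e j + u i * u j + v i * v j = if i = j then 1 else 0 := by
  let A : Matrix (Fin 3) (Fin 3) ℝ := Matrix.of ![e, u, v]
  have hA : A * A.transpose = 1 := by
    ext a b
    rw [Matrix.mul_apply, Fin.sum_univ_three]
    fin_cases a <;> fin_cases b <;> simp [A] <;> linarith
  have hB : A.transpose * A = 1 := mul_eq_one_comm.1 hA
  have := congrFun (congrFun hB i) j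
  simp only [Matrix.mul_apply, Fin.sum_univ_three, Matrix.one_apply, Matrix.transpose_apply] at this
  simpa [A] using this

/-- completeness of the frame -/
theorem frame_complete {x : ℍ} (hx : x ≠ 0) (i j : Fin 3) :
    fe x i * fe x j + fu x i * fu x j + fv x i * fv x j = if i = j then 1 else 0 := by
  have g1 : inner ℝ (fu x) (fu x) = (1:ℝ) := by
    rw [real_inner_self_eq_norm_sq, norm_fu hx]; norm_num
  have g2 : inner ℝ (fv x) (fv x) = (1:ℝ) := by
    rw [real_inner_self_eq_norm_sq, norm_fv hx]; norm_num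
  have g3 : inner ℝ (fe x) (fe x) = (1:ℝ) := by
    rw [real_inner_self_eq_norm_sq, norm_fe hx]; norm_num
  have g4 := inner_fu_fv hx
  have g5 := inner_fu_fe hx
  have g6 := inner_fv_fe hx
  rw [PiLp.inner_apply, Fin.sum_univ_three] at g1 g2 g3 g4 g5 g6
  simp only [RCLike.inner_apply, conj_trivial] at g1 g2 g3 g4 g5 g6
  exact orth_aux (fe x) (fu x) (fv x) g1 g2 g3 (by linarith) (by linarith) (by linarith) i j

theorem Lap_right (F : SF) : Lap F = DX (DX F) + DV (DV F) + DH (DH F) := by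
  have hH : DH (DH F) = R ((1 / 2 : ℝ) • qJ) (R ((1 / 2 : ℝ) • qJ) F) := by
    rw [DH, R_neg, R_neg, map_neg, neg_neg]
  rw [hH, DX, DV, RR_eq isImUnit_K, RR_eq isImUnit_I, RR_eq isImUnit_J,
    ← Finset.sum_add_distrib, ← Finset.sum_add_distrib]
  apply ext'
  intro x hx
  rw [sum_apply]
  have key : ∀ i j : Fin 3, (frc qK i * frc qK j * DZ i (DZ j F)) x
      + (frc qI i * frc qI j * DZ i (DZ j F)) x + (frc qJ i * frc qJ j * DZ i (DZ j F)) x
      = if i = j then (DZ i (DZ j F)) x else 0 := by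
    intro i j
    have h := frame_complete hx i j
    simp only [mul_apply, frc_apply _ _ hx]
    have : fr qK x i * fr qK x j + fr qI x i * fr qI x j + fr qJ x i * fr qJ x j
      = if i = j then 1 else 0 := h
    split_ifs at this ⊢
    · linear_combination ((DZ i (DZ j F)) x) * this
    · linear_combination ((DZ i (DZ j F)) x) * this
  have : ∀ i : Fin 3, ((∑ j, frc qK i * frc qK j * DZ i (DZ j F)
      + ∑ j, frc qI i * frc qI j * DZ i (DZ j F) + ∑ j, frc qJ i * frc qJ j * DZ i (DZ j F) : SF)) x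
      = (DZ i (DZ i F)) x := by
    intro i
    rw [← Finset.sum_add_distrib, ← Finset.sum_add_distrib, sum_apply]
    simp only [add_apply]
    rw [Finset.sum_congr rfl fun j _ => key i j]
    simp
  rw [Finset.sum_congr rfl fun i _ => this i, Lap_eq, Fin.sum_univ_three]
  simp only [add_apply]

theorem Lap_DX (F : SF) : Lap (DX F) = DX (Lap F) := by
  simp only [Lap_eq, map_add, DX_DZ]
theorem Lap_DV (F : SF) : Lap (DV F) = DV (Lap F) := by
  simp only [Lap_eq, map_add, DV_DZ]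
theorem Lap_DH (F : SF) : Lap (DH F) = DH (Lap F) := by
  simp only [Lap_eq, map_add, DH_DZ]
theorem Lap_DZ (a : Fin 3) (F : SF) : Lap (DZ a F) = DZ a (Lap F) := by
  simp only [Lap_right, map_add, DX_DZ, DV_DZ, DH_DZ]

theorem Lap_Dlet (i : Fin 6) (F : SF) : Lap (Dlet i F) = Dlet i (Lap F) := by
  fin_cases i
  · exact Lap_DX F
  · exact Lap_DV F
  · exact Lap_DH F
  · exact Lap_DZ 0 F
  · exact Lap_DZ 1 F
  · exact Lap_DZ 2 F

theorem Lap_symm (F G : SF) : ip (Lap F) G = ip F (Lap G) := by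
  simp only [Lap_eq, ip_add_left, ip_add_right, ip_DZ, neg_neg]

theorem cas_holds : CasFacts where
  right := Lap_right
  comm := Lap_Dlet
  symm := Lap_symm
  frame := ⟨frc qK, frc qI, frc qJ,
    fun _ _ hx => ⟨frc_apply _ _ hx, frc_apply _ _ hx, frc_apply _ _ hx⟩,
    DX_eq_sum, DV_eq_sum, DH_eq_sum⟩

end Pool.Agent.MP85963d.H2
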