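import Mathlib
import Pool.Agent.Lib.MP_85963d_gt.H2.Cas

/-!
# NORM: `L²` norms of words
-/

set_option autoImplicit false

open MeasureTheory Set Filter Topology Quaternion
open scoped Real ContDiff

namespace Pool.Agent.MP85963d.H2

open SF

theorem ip_Lap_left (F : SF) : -(ip (Lap F) F) = ∑ a, nrm (DZ a F) ^ 2 := by
  simp only [Lap_eq, ip_add_left, ip_DZ, Fin.sum_univ_three, nrm_sq']
  ring

theorem ip_Lap_right (F : SF) :
    -(ip (Lap F) F) = nrm (DX F) ^ 2 + nrm (DV F) ^ 2 + nrm (DH F) ^ 2 := by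
  simp only [Lap_right, ip_add_left, ip_DX, ip_DV, ip_DH, nrm_sq']
  ring

theorem nrm1_sq_eq (F : SF) : nrm1 F ^ 2 = -(ip (Lap F) F) := by
  rw [nrm1, Real.sq_sqrt]
  rw [ip_Lap_left]
  exact Finset.sum_nonneg fun _ _ => sq_nonneg _

theorem nrm1_nonneg (F : SF) : 0 ≤ nrm1 F := Real.sqrt_nonneg _

theorem nrm_Dlet_le (F : SF) (i : Fin 6) : nrm (Dlet i F) ≤ nrm1 F := by
  have key : nrm (Dlet i F) ^ 2 ≤ nrm1 F ^ 2 := by
    have h1 := nrm1_sq_eq F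
    have h2 := ip_Lap_left F
    have h3 := ip_Lap_right F
    rw [Fin.sum_univ_three] at h2
    have a1 := sq_nonneg (nrm (DX F))
    have a2 := sq_nonneg (nrm (DV F))
    have a3 := sq_nonneg (nrm (DH F))
    have a4 := sq_nonneg (nrm (DZ 0 F))
    have a5 := sq_nonneg (nrm (DZ 1 F))
    have a6 := sq_nonneg (nrm (DZ 2 F))
    rw [h1]
    fin_cases i
    · change nrm (DX F) ^ 2 ≤ _
      linarith
    · change nrm (DV F) ^ 2 ≤ _
      linarith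
    · change nrm (DH F) ^ 2 ≤ _
      linarith
    · change nrm (DZ 0 F) ^ 2 ≤ _
      linarith
    · change nrm (DZ 1 F) ^ 2 ≤ _
      linarith
    · change nrm (DZ 2 F) ^ 2 ≤ _
      linarith
  exact abs_le_of_sq_le_sq' key (nrm1_nonneg F) |>.2

/-- Cauchy-Schwarz in `SF` -/
theorem abs_ip_SF (F G : SF) : |ip F G| ≤ nrm F * nrm G := abs_ip_le F.continuousOn G.continuousOn

theorem nrm1_sq_le (F : SF) : nrm1 F ^ 2 ≤ nrm (Lap F) * nrm F := by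
  rw [nrm1_sq_eq]
  exact (neg_le_abs _).trans (abs_ip_SF _ _)

theorem nrm_Lap_sq_le (F : SF) : nrm (Lap F) ^ 2 ≤ nrm (Lap (Lap F)) * nrm F := by
  rw [nrm_sq', ← Lap_symm (Lap F) F]
  exact (le_abs_self _).trans (abs_ip_SF _ _)

theorem ip_Dlet (i : Fin 6) (F G : SF) : ip (Dlet i F) G = - ip F (Dlet i G) := by
  fin_cases i
  · exact ip_DX F G
  · exact ip_DV F G
  · exact ip_DH F G
  · exact ip_DZ 0 F G
  · exact ip_DZ 1 F G
  · exact ip_DZ 2 F G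

theorem nrm1_Dlet_sq (i : Fin 6) (F : SF) :
    nrm1 (Dlet i F) ^ 2 = ip (Lap F) (Dlet i (Dlet i F)) := by
  rw [nrm1_sq_eq, Lap_Dlet, ip_Dlet, neg_neg]

theorem nrm1_Dlet_le (i : Fin 6) (F : SF) : nrm1 (Dlet i F) ≤ nrm (Lap F) := by
  have h : ∀ j, 0 ≤ ip (Lap F) (Dlet j (Dlet j F)) := fun j => by
    rw [← nrm1_Dlet_sq]; exact sq_nonneg _
  have e0 : ip (Lap F) (DX (DX F)) + ip (Lap F) (DV (DV F)) + ip (Lap F) (DH (DH F))
      = nrm (Lap F) ^ 2 := by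
    rw [nrm_sq', ← ip_add_right, ← ip_add_right, ← Lap_right]
  have e1 : ip (Lap F) (DZ 0 (DZ 0 F)) + ip (Lap F) (DZ 1 (DZ 1 F)) + ip (Lap F) (DZ 2 (DZ 2 F))
      = nrm (Lap F) ^ 2 := by
    rw [nrm_sq', ← ip_add_right, ← ip_add_right, ← Lap_eq]
  have h0 : 0 ≤ ip (Lap F) (DX (DX F)) := h 0
  have h1 : 0 ≤ ip (Lap F) (DV (DV F)) := h 1
  have h2 : 0 ≤ ip (Lap F) (DH (DH F)) := h 2
  have h3 : 0 ≤ ip (Lap F) (DZ 0 (DZ 0 F)) := h 3
  have h4 : 0 ≤ ip (Lap F) (DZ 1 (DZ 1 F)) := h 4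
  have h5 : 0 ≤ ip (Lap F) (DZ 2 (DZ 2 F)) := h 5
  have key : nrm1 (Dlet i F) ^ 2 ≤ nrm (Lap F) ^ 2 := by
    rw [nrm1_Dlet_sq]
    fin_cases i
    · change ip (Lap F) (DX (DX F)) ≤ _
      linarith
    · change ip (Lap F) (DV (DV F)) ≤ _
      linarith
    · change ip (Lap F) (DH (DH F)) ≤ _
      linarith
    · change ip (Lap F) (DZ 0 (DZ 0 F)) ≤ _
      linarith
    · change ip (Lap F) (DZ 1 (DZ 1 F)) ≤ _
      linarith
    · change ip (Lap F) (DZ 2 (DZ 2 F)) ≤ _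
      linarith
  exact abs_le_of_sq_le_sq' key (nrm_nonneg _) |>.2

theorem nrm_DD_le (i j : Fin 6) (F : SF) : nrm (Dlet i (Dlet j F)) ≤ nrm (Lap F) :=
  (nrm_Dlet_le _ i).trans (nrm1_Dlet_le j F)

theorem nrm_word2 (F : SF) (l : List (Fin 6)) (h : l.length = 2) :
    nrm (word l F) ≤ nrm (Lap F) := by
  obtain ⟨a, b, rfl⟩ := List.length_eq_two.1 h
  exact nrm_DD_le a b F

theorem nrm_D3_sq_le (i j k : Fin 6) (F : SF) :
    nrm (Dlet i (Dlet j (Dlet k F))) ^ 2 ≤ nrm (Lap (Lap F)) * nrm (Lap F) := by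
  have h1 : nrm (Dlet i (Dlet j (Dlet k F))) ^ 2 ≤ nrm1 (Dlet j (Dlet k F)) ^ 2 := by
    have := nrm_Dlet_le (Dlet j (Dlet k F)) i
    have h0 := nrm_nonneg (Dlet i (Dlet j (Dlet k F)) : SF)
    exact pow_le_pow_left₀ h0 this 2
  have h2 := nrm1_sq_le (Dlet j (Dlet k F))
  have h3 : nrm (Lap (Dlet j (Dlet k F))) ≤ nrm (Lap (Lap F)) := by
    rw [Lap_Dlet, Lap_Dlet]
    exact nrm_DD_le _ _ _
  have h4 := nrm_DD_le j k F
  have h5 := mul_le_mul h3 h4 (nrm_nonneg _) (nrm_nonneg _)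
  linarith

theorem interp_aux {A B L ε : ℝ} (hA : 0 ≤ A) (hB : 0 ≤ B) (hL : 0 ≤ L) (hε : 0 < ε)
    (h : L ^ 2 ≤ A * B) : L ≤ ε * A + 1 / (4 * ε) * B := by
  have h2 : 0 ≤ ε * A + 1 / (4 * ε) * B := by positivity
  have h1 : L ^ 2 ≤ (ε * A + 1 / (4 * ε) * B) ^ 2 := by
    have : A * B ≤ (ε * A + 1 / (4 * ε) * B) ^ 2 := by
      have e : (ε * A + 1 / (4 * ε) * B) ^ 2 - A * B = (ε * A - 1 / (4 * ε) * B) ^ 2 := by
        field_simp
        ring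
      nlinarith [sq_nonneg (ε * A - 1 / (4 * ε) * B)]
    linarith
  exact abs_le_of_sq_le_sq' h1 h2 |>.2

theorem interp_holds (ε : ℝ) (hε : 0 < ε) : ∃ C : ℝ, ∀ (F : SF) (l : List (Fin 6)), l.length ≤ 3 →
    nrm (word l F) ≤ ε * nrm (Lap (Lap F)) + C * nrm F := by
  -- constants
  set C2 : ℝ := 1 / (4 * ε) with hC2
  -- for length one
  set δ1 : ℝ := min 1 (ε ^ 2) with hδ1
  refine ⟨1 + C2 + (ε + 1 / (4 * ε) * (1 / (4 * ε))) + (1 / (4 * ε ^ 2)) / (2 * ε) , fun F l hl => ?_⟩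
  set A := nrm (Lap (Lap F)) with hA
  set B := nrm F with hB
  set L := nrm (Lap F) with hL
  have hA0 : 0 ≤ A := nrm_nonneg _
  have hB0 : 0 ≤ B := nrm_nonneg _
  have hL0 : 0 ≤ L := nrm_nonneg _
  have hLsq : L ^ 2 ≤ A * B := nrm_Lap_sq_le F
  have hC20 : 0 < C2 := by positivity
  have p1 : 0 ≤ ε * A := by positivity
  have p2 : 0 ≤ C2 * B := by positivity
  have p3 : 0 ≤ (1 / (4 * ε ^ 2)) / (2 * ε) * B := by positivity
  have p4 : 0 ≤ (ε + 1 / (4 * ε) * (1 / (4 * ε))) * B := by positivity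
  rcases Nat.lt_or_ge l.length 1 with h0 | h0
  · have : l = [] := List.length_eq_zero_iff.1 (by omega)
    subst this
    change nrm F ≤ _
    rw [← hB]
    nlinarith
  rcases Nat.lt_or_ge l.length 2 with h1 | h1
  · obtain ⟨a, rfl⟩ := List.length_eq_one_iff.1 (show l.length = 1 by omega)
    change nrm (Dlet a F) ≤ _
    have q1 := nrm_Dlet_le F a
    have q2 := nrm1_sq_le F
    have q3 : nrm1 F ≤ 1 * L + 1 / (4 * 1) * B :=
      interp_aux hL0 hB0 (nrm1_nonneg F) one_pos q2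
    have q4 : L ≤ ε * A + C2 * B := interp_aux hA0 hB0 hL0 hε hLsq
    nlinarith
  rcases Nat.lt_or_ge l.length 3 with h2 | h2
  · have q4 : L ≤ ε * A + C2 * B := interp_aux hA0 hB0 hL0 hε hLsq
    have q5 := nrm_word2 F l (by omega)
    nlinarith
  · obtain ⟨a, b, c, rfl⟩ := List.length_eq_three.1 (show l.length = 3 by omega)
    change nrm (Dlet a (Dlet b (Dlet c F))) ≤ _
    have q1 := nrm_D3_sq_le a b c F
    rw [← hA, ← hL] at q1
    have hε2 : 0 < ε ^ 2 := by positivity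
    have q4 : L ≤ ε ^ 2 * A + 1 / (4 * ε ^ 2) * B := interp_aux hA0 hB0 hL0 hε2 hLsq
    set c3 : ℝ := (1 / (4 * ε ^ 2)) / (2 * ε) with hc3
    have hc30 : 0 ≤ c3 := by positivity
    have q6 : nrm (Dlet a (Dlet b (Dlet c F))) ^ 2 ≤ (ε * A + c3 * B) ^ 2 := by
      have r1 : A * L ≤ A * (ε ^ 2 * A + 1 / (4 * ε ^ 2) * B) := mul_le_mul_of_nonneg_left q4 hA0
      have r2 : (ε * A + c3 * B) ^ 2 = ε ^ 2 * A ^ 2 + 2 * ε * c3 * (A * B) + c3 ^ 2 * B ^ 2 := by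
        ring
      have r3 : 2 * ε * c3 = 1 / (4 * ε ^ 2) := by rw [hc3]; field_simp
      rw [r2, r3]
      have r4 : 0 ≤ c3 ^ 2 * B ^ 2 := by positivity
      nlinarith
    have q7 := abs_le_of_sq_le_sq' q6 (by positivity) |>.2
    nlinarith

theorem norm_holds : NormFacts where
  nrm1_sq := fun F => by rw [nrm1_sq_eq, ip_Lap_left]
  nrm1_neg := nrm1_sq_eq
  one := nrm_Dlet_le
  two := nrm_word2
  four := fun F l h => by
    obtain ⟨a, b, c, d, rfl⟩ : ∃ a b c d, l = [a, b, c, d] := by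
      match l, h with
      | [a, b, c, d], _ => exact ⟨a, b, c, d, rfl⟩
    change nrm (Dlet a (Dlet b (Dlet c (Dlet d F)))) ≤ _
    have h1 := nrm_DD_le a b (Dlet c (Dlet d F))
    have h2 : nrm (Lap (Dlet c (Dlet d F))) ≤ nrm (Lap (Lap F)) := by
      rw [Lap_Dlet, Lap_Dlet]
      exact nrm_DD_le _ _ _
    exact h1.trans h2
  interp := interp_holds

end Pool.Agent.MP85963d.H2
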