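import Mathlib
import Pool.Agent.Lib.MP_85963d_gt.H2.Norm

/-!
# LINA: high modes
-/

set_option autoImplicit false

open MeasureTheory Set Filter Topology Quaternion
open scoped Real ContDiff

namespace Pool.Agent.MP85963d.H2

open SF

/-! ### tools -/

theorem cts_SF (F : SF) : Cts F := ⟨F.continuousOn, fun _ x hr _ => F.hom hr x⟩

theorem shell_congr {f g : ℍ → ℝ} (h : ∀ x : ℍ, x ≠ 0 → f x = g x) :
    ∫ x in shell, f x = ∫ x in shell, g x :=
  setIntegral_congr_fun measurableSet_shell fun x hx => h x (ne_zero_of_mem_shell hx)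

theorem Bil_congr {w w' : ℍ → ℝ} (h : ∀ x : ℍ, x ≠ 0 → w x = w' x) (y η : SF) :
    Bil w y η = Bil w' y η :=
  shell_congr fun x hx => by rw [h x hx]

theorem cts_congr {f g : ℍ → ℝ} (h : ∀ x : ℍ, x ≠ 0 → f x = g x) (hg : Cts g) : Cts f where
  cont := hg.cont.congr fun x hx => h x hx
  hom := fun r x hr hx => by rw [h _ (smul_ne0 hr hx), h _ hx, hg.hom r x hr hx]

theorem nrm_le_of_abs_le {f g : ℍ → ℝ} (hf : ContinuousOn f {0}ᶜ) (hg : ContinuousOn g {0}ᶜ)
    {B : ℝ} (hB : 0 ≤ B) (h : ∀ x : ℍ, x ≠ 0 → |f x| ≤ B * |g x|) : nrm f ≤ B * nrm g := by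
  have h1 : ∫ x in shell, f x ^ 2 ≤ ∫ x in shell, B ^ 2 * g x ^ 2 := by
    refine setIntegral_mono_on (integrableOn_shell (hf.pow 2))
      ((integrableOn_shell (hg.pow 2)).const_mul _) measurableSet_shell fun x hx => ?_
    have h2 := h x (ne_zero_of_mem_shell hx)
    have h3 := pow_le_pow_left₀ (abs_nonneg _) h2 2
    rw [sq_abs, mul_pow, sq_abs] at h3
    exact h3
  rw [integral_const_mul, ← nrm_sq, ← nrm_sq, ← mul_pow] at h1
  exact abs_le_of_sq_le_sq' h1 (mul_nonneg hB (nrm_nonneg _)) |>.2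

theorem nrm_le_of_sup {f : ℍ → ℝ} (hf : ContinuousOn f {0}ᶜ) {ε : ℝ} (hε : 0 ≤ ε)
    (h : ∀ x : ℍ, x ≠ 0 → |f x| ≤ ε) : nrm f ≤ ε * nrm (fun _ => (1:ℝ)) :=
  nrm_le_of_abs_le hf continuousOn_const hε fun x hx => by simpa using h x hx

/-- `|f|² ≤ 2|g|² + 2|f-g|²` -/
theorem nrm_sq_le_two {f g : ℍ → ℝ} (hf : ContinuousOn f {0}ᶜ) (hg : ContinuousOn g {0}ᶜ) :
    nrm f ^ 2 ≤ 2 * nrm g ^ 2 + 2 * nrm (fun x => f x - g x) ^ 2 := by
  rw [nrm_sq, nrm_sq, nrm_sq, ← integral_const_mul, ← integral_const_mul, ← integral_add]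
  · refine setIntegral_mono_on (integrableOn_shell (hf.pow 2)) ?_ measurableSet_shell fun x hx => ?_
    · exact ((integrableOn_shell (hg.pow 2)).const_mul _).add
        ((integrableOn_shell ((hf.sub hg).pow 2)).const_mul _)
    · nlinarith [sq_nonneg (f x - 2 * g x)]
  · exact (integrableOn_shell (hg.pow 2)).const_mul _
  · exact (integrableOn_shell ((hf.sub hg).pow 2)).const_mul _

/-- the `L²` norm is definite on continuous homogeneous functions -/
theorem eq_zero_of_nrm_cts {f : ℍ → ℝ} (hf : Cts f) (h : nrm f = 0) : ∀ x : ℍ, x ≠ 0 → f x = 0 := by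
  have h0 : ∫ x in shell, f x ^ 2 = 0 := by rw [← nrm_sq, h]; ring
  have iF : IntegrableOn (fun x => f x ^ 2) shell := integrableOn_shell (hf.cont.pow 2)
  have h5 : (fun x => f x ^ 2) =ᵐ[volume.restrict shell] 0 := by
    rw [← setIntegral_eq_zero_iff_of_nonneg_ae (Eventually.of_forall fun x => sq_nonneg (f x)) iF]
    exact h0
  have hopen : IsOpen {y : ℍ | 1 < ‖y‖ ∧ ‖y‖ < 2} :=
    (isOpen_lt continuous_const continuous_norm).inter (isOpen_lt continuous_norm continuous_const)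
  have h6 : (fun x => f x ^ 2) =ᵐ[volume.restrict {y : ℍ | 1 < ‖y‖ ∧ ‖y‖ < 2}] 0 :=
    ae_restrict_of_ae_restrict_of_subset
      (fun y (hy : 1 < ‖y‖ ∧ ‖y‖ < 2) => (⟨hy.1.le, hy.2.le⟩ : 1 ≤ ‖y‖ ∧ ‖y‖ ≤ 2)) h5
  have hsub : {y : ℍ | 1 < ‖y‖ ∧ ‖y‖ < 2} ⊆ {0}ᶜ := by
    rintro y ⟨hy, _⟩ rfl
    simp at hy
    linarith
  have h7 := Measure.eqOn_open_of_ae_eq h6 hopen ((hf.cont.mono hsub).pow 2)
    continuousOn_const
  intro x hx
  have hn : ‖x‖ ≠ 0 := norm_ne_zero_iff.2 hx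
  have hr : (3 / 2 / ‖x‖ : ℝ) ≠ 0 := by positivity
  have hmem : ((3 / 2 / ‖x‖ : ℝ) • x) ∈ {y : ℍ | 1 < ‖y‖ ∧ ‖y‖ < 2} := by
    have : ‖(3 / 2 / ‖x‖ : ℝ) • x‖ = 3 / 2 := by
      rw [norm_smul, Real.norm_of_nonneg (by positivity)]
      field_simp
    constructor <;> rw [this] <;> norm_num
  have h8 := h7 hmem
  have h9 : f ((3 / 2 / ‖x‖ : ℝ) • x) = 0 := by simpa using h8
  rw [← h9, hf.hom _ x hr hx]

/-- weak form of the kernel equation -/
theorem ip_psi_zero (hPsi : PsiFacts) {w y : ℍ → ℝ} (hw : ContinuousOn w {0}ᶜ)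
    (hy : ContinuousOn y {0}ᶜ) (hK : KerK w y) {n : ℕ} {η : SF} (hη : η ∈ UN n) :
    ∫ x in shell, w x * y x * (psi η) x = 0 := by
  have hE : IsE (psi η) := (hPsi.mem n η hη).2
  have hg : ContinuousOn (fun x => w x * y x * (psi η) x) {0}ᶜ :=
    (hw.mul hy).mul (psi η).continuousOn
  have h1 := integral_shell_avg isImUnit_K hg (T := 2 * π) (by positivity)
  have h2 : ∫ x in shell, (∫ t in (0:ℝ)..(2 * π),
      w (x * rot qK t) * y (x * rot qK t) * (psi η) (x * rot qK t)) = ∫ x in shell, (0:ℝ) := by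
    apply shell_congr
    intro x hx
    have h3 : ∀ t : ℝ, w (x * rot qK t) * y (x * rot qK t) * (psi η) (x * rot qK t)
        = w (x * rot qK t) * y (x * rot qK t) * (psi η) x := fun t => by rw [hE.rotK]
    simp_rw [h3]
    rw [intervalIntegral.integral_mul_const]
    have h4 := hK x hx
    rw [avgK] at h4
    have h5 : (1 / (2 * π)) ≠ 0 := by positivity
    rw [(mul_eq_zero.1 h4).resolve_left h5, zero_mul]
  rw [h2, integral_zero] at h1
  have h6 : (2 * π) ≠ 0 := by positivity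
  exact (mul_eq_zero.1 h1.symm).resolve_left h6

theorem isKlein_of_isU {z : ℍ → ℝ} (hz : IsU z) : IsKlein z where
  mulI := fun x => by
    have := hz.rotI x π
    rwa [rot_pi] at this
  mulK := hz.mulK

/-- the Pestov bound for products with u-functions -/
theorem pest_mul (hP : PestStatement) {w : SF} (hw : IsKlein w) {B : ℝ} (hB : Bd 1 B w)
    {z : ℍ → ℝ} (hz : Cts z) (hzU : IsU z) {n : ℕ} {η : SF} (hη : η ∈ UN n) :
    |∫ x in shell, w x * z x * (psi η) x| ≤ 2 * B * nrm z * nrm η := by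
  have hzK := isKlein_of_isU hzU
  have b0 : ∀ x : ℍ, |w x| ≤ B := hB [] (by simp)
  have b1 : ∀ x : ℍ, |(DV w) x| ≤ B := hB [1] (by simp)
  have hB0 : 0 ≤ B := (abs_nonneg _).trans (b0 0)
  have h := hP n η hη (fun x => w x * z x) (fun x => (DV w) x * z x)
    ⟨w.continuousOn.mul hz.cont, fun r x hr hx => by rw [w.hom hr, hz.hom r x hr hx]⟩
    ⟨(DV w).continuousOn.mul hz.cont, fun r x hr hx => by rw [(DV w).hom hr, hz.hom r x hr hx]⟩
    ⟨fun x => by rw [hw.mulI, hzK.mulI], fun x => by rw [hw.mulK, hzK.mulK]⟩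
    (fun x hx t => by
      have e : (fun t => w (x * rot qI t) * z (x * rot qI t))
          = fun t => w (x * rot qI t) * z x := by
        funext t; rw [hzU.rotI]
      rw [e, hzU.rotI]
      exact (hasDerivAt_DV w hx t).mul_const _)
  have n1 : nrm (fun x => w x * z x) ≤ B * nrm z :=
    nrm_le_of_abs_le (w.continuousOn.mul hz.cont) hz.cont hB0 fun x _ => by
      rw [Pi.mul_apply, abs_mul]; exact mul_le_mul_of_nonneg_right (b0 x) (abs_nonneg _)
  have n2 : nrm (fun x => (DV w) x * z x) ≤ B * nrm z :=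
    nrm_le_of_abs_le ((DV w).continuousOn.mul hz.cont) hz.cont hB0 fun x _ => by
      rw [Pi.mul_apply, abs_mul]; exact mul_le_mul_of_nonneg_right (b1 x) (abs_nonneg _)
  refine h.trans ?_
  refine mul_le_mul_of_nonneg_right ?_ (nrm_nonneg _)
  linarith

/-- bounds on modes -/
theorem mode_bounds (hM : ModeFacts) {k : ℕ} (hk : 1 ≤ k) {χ : SF} (hχ : Mode k χ) :
    (k:ℝ) * nrm χ ≤ nrm1 χ ∧ (k:ℝ) * nrm1 χ ≤ nrm (Lap χ) := by
  have hk0 : (0:ℝ) < k := by exact_mod_cast hk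
  have h1 : ((k:ℝ) * nrm χ) ^ 2 ≤ nrm1 χ ^ 2 := by
    have e1 : nrm (DZ 2 χ) ^ 2 = (k:ℝ) ^ 2 * nrm χ ^ 2 := by
      rw [nrm_sq', ip_DZ, hM.zz k χ hχ, ip_smul_right, nrm_sq']
      ring
    rw [nrm1_sq_eq, ip_Lap_left, Fin.sum_univ_three, e1]
    nlinarith [sq_nonneg (nrm (DZ 0 χ)), sq_nonneg (nrm (DZ 1 χ))]
  have h2 : (k:ℝ) * nrm χ ≤ nrm1 χ := abs_le_of_sq_le_sq' h1 (nrm1_nonneg _) |>.2
  refine ⟨h2, ?_⟩
  have h3 := nrm1_sq_le χ
  rcases (nrm1_nonneg χ).eq_or_lt with h0 | h0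
  · rw [← h0, mul_zero]; exact nrm_nonneg _
  · have h4 : nrm1 χ * (k * nrm1 χ) ≤ nrm1 χ * nrm (Lap χ) := by
      calc nrm1 χ * (k * nrm1 χ) = k * nrm1 χ ^ 2 := by ring
        _ ≤ k * (nrm (Lap χ) * nrm χ) := mul_le_mul_of_nonneg_left h3 hk0.le
        _ = (k * nrm χ) * nrm (Lap χ) := by ring
        _ ≤ nrm1 χ * nrm (Lap χ) := mul_le_mul_of_nonneg_right h2 (nrm_nonneg _)
    exact le_of_mul_le_mul_left h4 h0

/-- Garding's inequality on high modes -/
theorem garding_mode (hM : ModeFacts) (hPsi : PsiFacts) {c C : ℝ} {w : SF}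
    (hG : ∀ (n : ℕ) (χ : SF), χ ∈ UN n →
      c * nrm (Lap χ) ^ 2 - C * (nrm (Lap χ) + nrm1 χ) * (nrm1 χ + nrm χ)
        ≤ ∫ x in shell, w x * (Lap χ) x * (Lap (psi χ)) x)
    {k n : ℕ} (hk : 1 ≤ k) {y : SF} (hy : y ∈ SNk k n) :
    (c - 4 * |C| / k) * nrm y ^ 2 ≤ Bil w y y := by
  obtain ⟨χ, hχ, rfl⟩ := hM.lap_surj k n hk y hy
  have h1 := hG n χ hχ.1
  obtain ⟨m1, m2⟩ := mode_bounds hM hk hχ.2
  have hk0 : (0:ℝ) < k := by exact_mod_cast hk
  have hk1 : (1:ℝ) ≤ k := by exact_mod_cast hk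
  have e : Bil w (Lap χ) (Lap χ) = ∫ x in shell, w x * (Lap χ) x * (Lap (psi χ)) x := by
    rw [Bil, hPsi.lap n χ hχ.1]
  rw [e]
  refine le_trans ?_ h1
  set L := nrm (Lap χ)
  set N := nrm1 χ
  set A := nrm χ
  have hL : 0 ≤ L := nrm_nonneg _
  have hN : 0 ≤ N := nrm1_nonneg _
  have hA : 0 ≤ A := nrm_nonneg _
  have hNL : N ≤ L := by nlinarith
  have hAN : A ≤ N := by nlinarith
  have hNk : N ≤ L / k := by rw [le_div_iff₀ hk0]; linarith
  have p1 : (L + N) * (N + A) ≤ 4 / k * L ^ 2 := by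
    calc (L + N) * (N + A) ≤ (2 * L) * (2 * (L / k)) := by
          apply mul_le_mul <;> linarith
      _ = 4 / k * L ^ 2 := by ring
  have p2 : C * (L + N) * (N + A) ≤ |C| * (4 / k * L ^ 2) := by
    calc C * (L + N) * (N + A) = C * ((L + N) * (N + A)) := by ring
      _ ≤ |C| * ((L + N) * (N + A)) :=
          mul_le_mul_of_nonneg_right (le_abs_self C) (by positivity)
      _ ≤ |C| * (4 / k * L ^ 2) := mul_le_mul_of_nonneg_left p1 (abs_nonneg _)
  have e2 : (c - 4 * |C| / k) * L ^ 2 = c * L ^ 2 - |C| * (4 / k * L ^ 2) := by ring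
  rw [e2]
  linarith

theorem SNk_le (k n : ℕ) : SNk k n ≤ UN n := fun _ h => h.1

theorem linA_of (hG : GardStatement) (hF : FamFacts) (hW : WSFacts) (hM : ModeFacts)
    (hDet : DetFacts) (hDens : DensFacts) (hP : PestStatement) (hPsi : PsiFacts) :
    LinAStatement := by
  intro p₀ p₁ hp₀ hp₁ hr₀ hr₁
  obtain ⟨c₀, hc₀, hlow⟩ := hF.low p₀ p₁ hp₀ hp₁
  obtain ⟨B, hB⟩ := hF.bd p₀ p₁ hp₀ hp₁ 4
  obtain ⟨c, hc, C, hGC⟩ := hG c₀ B hc₀
  obtain ⟨M, hM1, hM2⟩ : ∃ M : ℕ, 1 ≤ M ∧ 8 * |C| / c ≤ M := by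
    obtain ⟨M, hM⟩ := exists_nat_ge (8 * |C| / c)
    exact ⟨M + 1, by omega, by push_cast; linarith⟩
  refine ⟨M, fun k hk s hs => ?_⟩
  have hk1 : 1 ≤ k := hM1.trans hk
  have hk0 : (0:ℝ) < k := by exact_mod_cast hk1
  have hadm : Adm (seg p₀ p₁ s) := hW.seg_adm p₀ p₁ hp₀ hp₁ s hs
  set w : SF := wS (seg p₀ p₁ s) with hw
  have hwK : IsKlein w := hW.wS_klein _ hadm
  have hwf : ∀ x : ℍ, x ≠ 0 → wf (seg p₀ p₁ s) x = w x := fun x hx =>
    (hW.wS_apply _ hadm x hx).symm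
  have hwc : Cts (wf (seg p₀ p₁ s)) := cts_congr hwf (cts_SF w)
  have hgard := hGC w hwK (fun x hx => (hlow s hs x hx).2.2) (hB s hs).2
  have hckk : c / 2 ≤ c - 4 * |C| / k := by
    have h1 : 8 * |C| / c ≤ k := hM2.trans (by exact_mod_cast hk)
    rw [div_le_iff₀ hc] at h1
    have h2 : 4 * |C| / k ≤ c / 2 := by
      rw [div_le_iff₀ hk0]; linarith
    linarith
  have hbil : ∀ n : ℕ, ∀ y ∈ SNk k n, c / 2 * nrm y ^ 2 ≤ Bil w y y := by
    intro n y hy
    refine le_trans ?_ (garding_mode hM hPsi hgard hk1 hy)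
    exact mul_le_mul_of_nonneg_right hckk (sq_nonneg _)
  have hBd1 : Bd 1 B w := fun l hl x => (hB s hs).2 l (hl.trans (by norm_num)) x
  have hB0 : 0 ≤ B := (abs_nonneg _).trans (hBd1 [] (by simp) 0)
  constructor
  · -- the kernel
    intro y hy hyU hyM hK
    apply eq_zero_of_nrm_cts hy
    set S := nrm (fun _ : ℍ => (1:ℝ)) with hS
    have hS0 : 0 ≤ S := nrm_nonneg _
    -- bound for every `ε`
    have key : ∀ ε : ℝ, 0 < ε → nrm y ^ 2 ≤ 2 * (4 * B * S / c * ε) ^ 2 + 2 * (S * ε) ^ 2 := by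
      intro ε hε
      obtain ⟨n, F, hFm, hFy⟩ := hDens.mode k hk1 y hy hyU hyM ε hε
      have hz : Cts (fun x => F x - y x) :=
        ⟨F.continuousOn.sub hy.cont, fun r x hr hx => by rw [F.hom hr, hy.hom r x hr hx]⟩
      have hFU : IsU F := hFm.1.2
      have hzU : IsU (fun x => F x - y x) :=
        ⟨fun x t => by rw [hFU.rotI, hyU.rotI], fun x => by rw [hFU.mulK, hyU.mulK]⟩
      have hzn : nrm (fun x => F x - y x) ≤ ε * S :=
        nrm_le_of_sup hz.cont hε.le fun x hx => by rw [abs_sub_comm]; exact hFy x hx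
      have hyn : nrm (fun x => y x - F x) ≤ ε * S :=
        nrm_le_of_sup (hy.cont.sub F.continuousOn) hε.le hFy
      have h1 := pest_mul hP hwK hBd1 hz hzU hFm.1
      have h2 : ∫ x in shell, w x * (F x - y x) * (psi F) x = Bil w F F := by
        have h3 : ∫ x in shell, w x * y x * (psi F) x = 0 := by
          refine ip_psi_zero hPsi w.continuousOn hy.cont ?_ hFm.1
          intro x hx
          have h4 := hK x hx
          have h5 : avgK (fun z => w z * y z) x = avgK (fun z => wf (seg p₀ p₁ s) z * y z) x := by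
            rw [avgK, avgK]
            congr 1
            refine intervalIntegral.integral_congr fun t _ => ?_
            rw [hwf _ (rrot_ne_zero isImUnit_K hx t)]
          rw [h5, h4]
        have i1 : IntegrableOn (fun x => w x * F x * (psi F) x) shell :=
          integrableOn_shell ((w.continuousOn.mul F.continuousOn).mul (psi F).continuousOn)
        have i2 : IntegrableOn (fun x => w x * y x * (psi F) x) shell :=
          integrableOn_shell ((w.continuousOn.mul hy.cont).mul (psi F).continuousOn)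
        have e : (fun x => w x * (F x - y x) * (psi F) x)
            = fun x => w x * F x * (psi F) x - w x * y x * (psi F) x := by
          funext x; ring
        rw [e, integral_sub i1 i2, h3, sub_zero, Bil]
      rw [h2] at h1
      have h3 := hbil n F hFm
      have h4 : c / 2 * nrm F ^ 2 ≤ 2 * B * (ε * S) * nrm F := by
        calc c / 2 * nrm F ^ 2 ≤ |Bil w F F| := h3.trans (le_abs_self _)
          _ ≤ 2 * B * nrm (fun x => F x - y x) * nrm F := h1
          _ ≤ 2 * B * (ε * S) * nrm F := by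
              apply mul_le_mul_of_nonneg_right _ (nrm_nonneg _)
              exact mul_le_mul_of_nonneg_left hzn (by positivity)
      have h5 : nrm F ≤ 4 * B * S / c * ε := by
        rcases (nrm_nonneg F).eq_or_lt with h0 | h0
        · rw [← h0]; positivity
        · have h6 : c / 2 * nrm F ≤ 2 * B * (ε * S) := by
            have : nrm F * (c / 2 * nrm F) ≤ nrm F * (2 * B * (ε * S)) := by nlinarith
            exact le_of_mul_le_mul_left this h0
          have h7 : 4 * B * S / c * ε = (2 * B * (ε * S)) * (2 / c) := by ring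
          rw [h7]
          have h8 : nrm F = (c / 2 * nrm F) * (2 / c) := by field_simp
          rw [h8]
          exact mul_le_mul_of_nonneg_right h6 (by positivity)
      have h6 := nrm_sq_le_two hy.cont F.continuousOn
      have h7 : nrm F ^ 2 ≤ (4 * B * S / c * ε) ^ 2 := pow_le_pow_left₀ (nrm_nonneg _) h5 2
      have h8 : nrm (fun x => y x - F x) ^ 2 ≤ (S * ε) ^ 2 := by
        apply pow_le_pow_left₀ (nrm_nonneg _)
        linarith
      linarith
    have h9 : nrm y ^ 2 ≤ 0 := by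
      have h10 : Tendsto (fun ε : ℝ => 2 * (4 * B * S / c * ε) ^ 2 + 2 * (S * ε) ^ 2)
          (𝓝[>] 0) (𝓝 0) := by
        have : Continuous fun ε : ℝ => 2 * (4 * B * S / c * ε) ^ 2 + 2 * (S * ε) ^ 2 := by
          fun_prop
        have h11 := this.tendsto 0
        simp only [mul_zero, ne_eq, OfNat.ofNat_ne_zero, not_false_eq_true, zero_pow,
          add_zero] at h11
        exact h11.mono_left nhdsWithin_le_nhds
      refine ge_of_tendsto h10 ?_
      filter_upwards [self_mem_nhdsWithin] with ε hε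
      exact key ε hε
    have := nrm_nonneg y
    nlinarith
  · -- the determinants
    intro n
    refine hDet.coer (SNk k n) n _ hwc (SNk_le k n) fun y hy hy0 => ?_
    rw [Bil_congr hwf]
    refine lt_of_lt_of_le ?_ (hbil n y hy)
    have : 0 < nrm y := by
      rcases (nrm_nonneg y).eq_or_lt with h0 | h0
      · exact absurd (eq_zero_of_nrm h0.symm) hy0
      · exact h0
    positivity

end Pool.Agent.MP85963d.H2
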